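import Mathlib

/-!
# A gcd condition for levelness of lecture hall simplices
-/

namespace Pool.Agent.Results.MP_aff17b_co.GcdImpliesLevel

open Set Topology

/-- The `s`-lecture hall simplex `{x : 0 ≤ x₁/s₁ ≤ ⋯ ≤ x_n/s_n ≤ 1}` in `ℝ^n`, `n = m + 1`. -/
def lectureHall {m : ℕ} (s : Fin (m + 1) → ℕ) : Set (Fin (m + 1) → ℝ) :=
  {x | 0 ≤ x 0 / (s 0 : ℝ) ∧
    (∀ j : Fin m, x j.castSucc / (s j.castSucc : ℝ) ≤ x j.succ / (s j.succ : ℝ)) ∧
    x (Fin.last m) / (s (Fin.last m) : ℝ) ≤ 1}

/-- The cone over `P × {1}`. -/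
def coneOver {n : ℕ} (P : Set (Fin n → ℝ)) : Set ((Fin n → ℝ) × ℝ) :=
  {z | ∃ t : ℝ, 0 ≤ t ∧ ∃ p ∈ P, z = (t • p, t)}

/-- A lattice point of `ℤ^n × ℤ` viewed in `ℝ^n × ℝ`. -/
def latticePt {n : ℕ} (a : (Fin n → ℤ) × ℤ) : (Fin n → ℝ) × ℝ :=
  (fun i => (a.1 i : ℝ), (a.2 : ℝ))

/-- Levelness: with `d₀` the least height of an interior lattice point of the cone over `P × {1}`,
every interior lattice point is the sum of an interior lattice point of height `d₀` and a lattice
point of the cone. -/
def IsLevel {n : ℕ} (P : Set (Fin n → ℝ)) : Prop :=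
  ∃ d₀ : ℤ, IsLeast {h : ℤ | ∃ u : (Fin n → ℤ) × ℤ,
      latticePt u ∈ interior (coneOver P) ∧ u.2 = h} d₀ ∧
    ∀ a : (Fin n → ℤ) × ℤ, latticePt a ∈ interior (coneOver P) →
      ∃ u v : (Fin n → ℤ) × ℤ, latticePt u ∈ interior (coneOver P) ∧ u.2 = d₀ ∧
        latticePt v ∈ coneOver P ∧ a = u + v

/-- The cone over the lecture hall simplex, by inequalities. -/
def hallCone {m : ℕ} (s : Fin (m + 1) → ℕ) : Set ((Fin (m + 1) → ℝ) × ℝ) :=
  {z | 0 ≤ z.1 0 ∧
    (∀ j : Fin m, z.1 j.castSucc * (s j.succ : ℝ) ≤ z.1 j.succ * (s j.castSucc : ℝ)) ∧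
    z.1 (Fin.last m) ≤ z.2 * (s (Fin.last m) : ℝ)}

/-- The strict version. -/
def hallConeStrict {m : ℕ} (s : Fin (m + 1) → ℕ) : Set ((Fin (m + 1) → ℝ) × ℝ) :=
  {z | 0 < z.1 0 ∧
    (∀ j : Fin m, z.1 j.castSucc * (s j.succ : ℝ) < z.1 j.succ * (s j.castSucc : ℝ)) ∧
    z.1 (Fin.last m) < z.2 * (s (Fin.last m) : ℝ)}

theorem coneOver_lectureHall {m : ℕ} (s : Fin (m + 1) → ℕ) (hs : ∀ i, 1 ≤ s i) :
    coneOver (lectureHall s) = hallCone s := by
  have hs' : ∀ i, (0 : ℝ) < s i := fun i => by exact_mod_cast hs i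
  ext ⟨x, t⟩
  constructor
  · rintro ⟨t', ht', p, ⟨h0, hc, h1⟩, hz⟩
    obtain ⟨rfl, rfl⟩ := Prod.mk.inj hz
    refine ⟨?_, ?_, ?_⟩
    · have : 0 ≤ p 0 := by
        have := mul_nonneg h0 (hs' 0).le
        rwa [div_mul_cancel₀ _ (hs' 0).ne'] at this
      exact mul_nonneg ht' this
    · intro j
      have := hc j
      rw [div_le_div_iff₀ (hs' _) (hs' _)] at this
      have := mul_le_mul_of_nonneg_left this ht'
      simp only [Pi.smul_apply, smul_eq_mul]
      linarith
    · rw [div_le_one (hs' _)] at h1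
      exact mul_le_mul_of_nonneg_left h1 ht'
  · rintro ⟨h0, hc, h1⟩
    simp only at h0 hc h1
    have hmono : Monotone (fun i => x i / (s i : ℝ)) := by
      rw [Fin.monotone_iff_le_succ]
      intro j
      rw [div_le_div_iff₀ (hs' _) (hs' _)]
      exact hc j
    have hlast : x (Fin.last m) / (s (Fin.last m) : ℝ) ≤ t := by
      rw [div_le_iff₀ (hs' _)]
      exact h1
    have h00 : 0 ≤ x 0 / (s 0 : ℝ) := div_nonneg h0 (hs' 0).le
    have ht : 0 ≤ t := le_trans h00 (le_trans (hmono (Fin.zero_le _)) hlast)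
    rcases ht.eq_or_lt with ht0 | htpos
    · -- t = 0
      have hx : x = 0 := by
        funext i
        have ha : 0 ≤ x i / (s i : ℝ) := le_trans h00 (hmono (Fin.zero_le i))
        have hb : x i / (s i : ℝ) ≤ 0 := by
          rw [ht0]
          exact le_trans (hmono (Fin.le_last i)) hlast
        have hc' : x i / (s i : ℝ) = 0 := le_antisymm hb ha
        rcases (div_eq_zero_iff).1 hc' with h | h
        · exact h
        · exact absurd h (hs' i).ne'
      refine ⟨0, le_refl _, 0, ⟨?_, ?_, ?_⟩, ?_⟩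
      · simp
      · intro j
        simp
      · simp
      · rw [hx, ← ht0]
        simp
    · refine ⟨t, ht, t⁻¹ • x, ⟨?_, ?_, ?_⟩, ?_⟩
      · simp only [Pi.smul_apply, smul_eq_mul, mul_div_assoc]
        exact mul_nonneg (inv_nonneg.2 ht) h00
      · intro j
        simp only [Pi.smul_apply, smul_eq_mul, mul_div_assoc]
        apply mul_le_mul_of_nonneg_left _ (inv_nonneg.2 ht)
        rw [div_le_div_iff₀ (hs' _) (hs' _)]
        exact hc j
      · simp only [Pi.smul_apply, smul_eq_mul, mul_div_assoc]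
        rw [inv_mul_le_iff₀ htpos, mul_one]
        exact hlast
      · rw [smul_smul, mul_inv_cancel₀ htpos.ne', one_smul]

theorem pos_of_mem_interior {E : Type*} [NormedAddCommGroup E] [NormedSpace ℝ E] (C : Set E)
    (l : E →ₗ[ℝ] ℝ) (h : ∀ z ∈ C, 0 ≤ l z) (e : E) (he : 0 < l e) (z : E) (hz : z ∈ interior C) :
    0 < l z := by
  have hcont : Filter.Tendsto (fun t : ℝ => z - t • e) (𝓝 0) (𝓝 (z - (0 : ℝ) • e)) := by
    apply Continuous.tendsto
    fun_prop
  rw [zero_smul, sub_zero] at hcont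
  have hev : ∀ᶠ t : ℝ in 𝓝 0, z - t • e ∈ C :=
    hcont.eventually (mem_interior_iff_mem_nhds.1 hz)
  have hev' : ∀ᶠ t : ℝ in 𝓝[>] 0, z - t • e ∈ C := hev.filter_mono nhdsWithin_le_nhds
  obtain ⟨t, ht, ht0⟩ := (hev'.and self_mem_nhdsWithin).exists
  have := h _ ht
  rw [map_sub, map_smul, smul_eq_mul] at this
  have h2 : 0 < t * l e := mul_pos ht0 he
  linarith

theorem interior_hallCone {m : ℕ} (s : Fin (m + 1) → ℕ) (hs : ∀ i, 1 ≤ s i) :
    interior (hallCone s) = hallConeStrict s := by
  have hs' : ∀ i, (0 : ℝ) < s i := fun i => by exact_mod_cast hs i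
  apply Subset.antisymm
  · intro z hz
    refine ⟨?_, ?_, ?_⟩
    · refine pos_of_mem_interior (hallCone s)
        ((LinearMap.proj 0).comp (LinearMap.fst ℝ (Fin (m + 1) → ℝ) ℝ)) ?_
        ((fun _ => 1), 0) ?_ z hz
      · intro y hy
        exact hy.1
      · simp
    · intro j
      have := pos_of_mem_interior (hallCone s)
        ((s j.castSucc : ℝ) • ((LinearMap.proj j.succ).comp
            (LinearMap.fst ℝ (Fin (m + 1) → ℝ) ℝ)) -
          (s j.succ : ℝ) • ((LinearMap.proj j.castSucc).comp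
            (LinearMap.fst ℝ (Fin (m + 1) → ℝ) ℝ))) ?_
        (Pi.single j.succ 1, 0) ?_ z hz
      · simp only [LinearMap.sub_apply, LinearMap.smul_apply, LinearMap.comp_apply,
          LinearMap.fst_apply, LinearMap.proj_apply, smul_eq_mul] at this
        linarith
      · intro y hy
        have := hy.2.1 j
        simp only [LinearMap.sub_apply, LinearMap.smul_apply, LinearMap.comp_apply,
          LinearMap.fst_apply, LinearMap.proj_apply, smul_eq_mul]
        linarith
      · simp only [LinearMap.sub_apply, LinearMap.smul_apply, LinearMap.comp_apply,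
          LinearMap.fst_apply, LinearMap.proj_apply, smul_eq_mul, Pi.single_eq_same, mul_one]
        rw [Pi.single_eq_of_ne (Fin.castSucc_lt_succ).ne]
        simp only [mul_zero, sub_zero]
        exact hs' _
    · have := pos_of_mem_interior (hallCone s)
        ((s (Fin.last m) : ℝ) • (LinearMap.snd ℝ (Fin (m + 1) → ℝ) ℝ) -
          ((LinearMap.proj (Fin.last m)).comp (LinearMap.fst ℝ (Fin (m + 1) → ℝ) ℝ))) ?_
        (0, 1) ?_ z hz
      · simp only [LinearMap.sub_apply, LinearMap.smul_apply, LinearMap.comp_apply,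
          LinearMap.fst_apply, LinearMap.snd_apply, LinearMap.proj_apply, smul_eq_mul] at this
        linarith
      · intro y hy
        have := hy.2.2
        simp only [LinearMap.sub_apply, LinearMap.smul_apply, LinearMap.comp_apply,
          LinearMap.fst_apply, LinearMap.snd_apply, LinearMap.proj_apply, smul_eq_mul]
        linarith
      · simp only [LinearMap.sub_apply, LinearMap.smul_apply, LinearMap.comp_apply,
          LinearMap.fst_apply, LinearMap.snd_apply, LinearMap.proj_apply, smul_eq_mul,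
          Pi.zero_apply, mul_one, sub_zero]
        exact hs' _
  · apply interior_maximal
    · rintro z ⟨h0, hc, h1⟩
      exact ⟨h0.le, fun j => (hc j).le, h1.le⟩
    · have : hallConeStrict s = {z | 0 < z.1 0} ∩
          ((⋂ j : Fin m, {z | z.1 j.castSucc * (s j.succ : ℝ) < z.1 j.succ * (s j.castSucc : ℝ)}) ∩
          {z | z.1 (Fin.last m) < z.2 * (s (Fin.last m) : ℝ)}) := by
        ext z
        simp [hallConeStrict]
      rw [this]
      apply IsOpen.inter
      · exact isOpen_lt (by fun_prop) (by fun_prop)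
      · apply IsOpen.inter
        · apply isOpen_iInter_of_finite
          intro j
          exact isOpen_lt (by fun_prop) (by fun_prop)
        · exact isOpen_lt (by fun_prop) (by fun_prop)

/-- Integer description of interior lattice points. -/
theorem lattice_interior_iff {m : ℕ} (s : Fin (m + 1) → ℕ) (hs : ∀ i, 1 ≤ s i)
    (a : (Fin (m + 1) → ℤ) × ℤ) :
    latticePt a ∈ interior (coneOver (lectureHall s)) ↔
      0 < a.1 0 ∧ (∀ j : Fin m, a.1 j.castSucc * (s j.succ : ℤ) < a.1 j.succ * (s j.castSucc : ℤ)) ∧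
        a.1 (Fin.last m) < a.2 * (s (Fin.last m) : ℤ) := by
  rw [coneOver_lectureHall s hs, interior_hallCone s hs]
  unfold hallConeStrict latticePt
  simp only [mem_ofPred_eq]
  constructor
  · rintro ⟨h0, hc, h1⟩
    refine ⟨by exact_mod_cast h0, fun j => ?_, by exact_mod_cast h1⟩
    have := hc j
    exact_mod_cast this
  · rintro ⟨h0, hc, h1⟩
    refine ⟨by exact_mod_cast h0, fun j => ?_, by exact_mod_cast h1⟩
    have := hc j
    exact_mod_cast this

/-- Integer description of lattice points of the cone. -/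
theorem lattice_mem_iff {m : ℕ} (s : Fin (m + 1) → ℕ) (hs : ∀ i, 1 ≤ s i)
    (a : (Fin (m + 1) → ℤ) × ℤ) :
    latticePt a ∈ coneOver (lectureHall s) ↔
      0 ≤ a.1 0 ∧ (∀ j : Fin m, a.1 j.castSucc * (s j.succ : ℤ) ≤ a.1 j.succ * (s j.castSucc : ℤ)) ∧
        a.1 (Fin.last m) ≤ a.2 * (s (Fin.last m) : ℤ) := by
  rw [coneOver_lectureHall s hs]
  unfold hallCone latticePt
  simp only [mem_ofPred_eq]
  constructor
  · rintro ⟨h0, hc, h1⟩
    refine ⟨by exact_mod_cast h0, fun j => ?_, by exact_mod_cast h1⟩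
    have := hc j
    exact_mod_cast this
  · rintro ⟨h0, hc, h1⟩
    refine ⟨by exact_mod_cast h0, fun j => ?_, by exact_mod_cast h1⟩
    have := hc j
    exact_mod_cast this

/-- If the chain inequalities hold for `y` with `0 ≤ y 0`, then all `y i` are nonnegative. -/
theorem nonneg_of_chain {m : ℕ} (s : Fin (m + 1) → ℕ) (hs : ∀ i, 1 ≤ s i)
    (y : Fin (m + 1) → ℤ) (h0 : 0 ≤ y 0)
    (hc : ∀ j : Fin m, y j.castSucc * (s j.succ : ℤ) ≤ y j.succ * (s j.castSucc : ℤ)) :
    ∀ i, 0 ≤ y i := by
  intro i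
  induction i using Fin.induction with
  | zero => exact h0
  | succ j ih =>
    have h1 := hc j
    have h2 : (0 : ℤ) ≤ y j.castSucc * (s j.succ : ℤ) := mul_nonneg ih (by positivity)
    have h3 : (0 : ℤ) ≤ y j.succ * (s j.castSucc : ℤ) := le_trans h2 h1
    have h4 : (0 : ℤ) < (s j.castSucc : ℤ) := by exact_mod_cast hs _
    exact nonneg_of_mul_nonneg_left h3 h4

/-- If `s` admits an integer vector `c` with `c₁ = 1` and
`c_j s_{j-1} = c_{j-1} s_j + gcd(s_{j-1}, s_j)`, then the lecture hall simplex is level. -/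
theorem result (m : ℕ) (s : Fin (m + 1) → ℕ) (hs : ∀ i, 1 ≤ s i) (c : Fin (m + 1) → ℤ)
    (hc1 : c 0 = 1)
    (hc : ∀ j : Fin m, c j.succ * (s j.castSucc : ℤ) =
      c j.castSucc * (s j.succ : ℤ) + (Nat.gcd (s j.castSucc) (s j.succ) : ℤ)) :
    IsLevel (lectureHall s) := by
  have hsZ : ∀ i, (0 : ℤ) < s i := fun i => by exact_mod_cast hs i
  have hg : ∀ j : Fin m, (0 : ℤ) < (Nat.gcd (s j.castSucc) (s j.succ) : ℤ) := by
    intro j
    exact_mod_cast Nat.gcd_pos_of_pos_left _ (hs j.castSucc)
  set L := Fin.last m with hL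
  -- interior lattice points minus `c` satisfy the weak chain inequalities
  have key : ∀ a : (Fin (m + 1) → ℤ) × ℤ, latticePt a ∈ interior (coneOver (lectureHall s)) →
      0 ≤ a.1 0 - c 0 ∧ (∀ j : Fin m, (a.1 j.castSucc - c j.castSucc) * (s j.succ : ℤ) ≤
        (a.1 j.succ - c j.succ) * (s j.castSucc : ℤ)) := by
    intro a ha
    rw [lattice_interior_iff s hs] at ha
    obtain ⟨h0, hch, -⟩ := ha
    refine ⟨by omega, fun j => ?_⟩
    have h1 := hch j
    have hdvd : (Nat.gcd (s j.castSucc) (s j.succ) : ℤ) ∣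
        a.1 j.succ * (s j.castSucc : ℤ) - a.1 j.castSucc * (s j.succ : ℤ) := by
      apply dvd_sub
      · apply Dvd.dvd.mul_left
        exact_mod_cast Nat.gcd_dvd_left _ _
      · apply Dvd.dvd.mul_left
        exact_mod_cast Nat.gcd_dvd_right _ _
    have h2 := Int.le_of_dvd (by linarith) hdvd
    have h3 := hc j
    nlinarith
  have hd : c L < (c L / (s L : ℤ) + 1) * (s L : ℤ) := Int.lt_ediv_add_one_mul_self _ (hsZ L)
  have hcint : latticePt (c, c L / (s L : ℤ) + 1) ∈ interior (coneOver (lectureHall s)) := by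
    rw [lattice_interior_iff s hs]
    refine ⟨by simp [hc1], fun j => ?_, hd⟩
    have := hc j
    have := hg j
    simp only
    linarith
  have hmin : ∀ a : (Fin (m + 1) → ℤ) × ℤ, latticePt a ∈ interior (coneOver (lectureHall s)) →
      c L / (s L : ℤ) + 1 ≤ a.2 := by
    intro a ha
    obtain ⟨hk0, hk⟩ := key a ha
    have hnn := nonneg_of_chain s hs (fun i => a.1 i - c i) hk0 hk L
    rw [lattice_interior_iff s hs] at ha
    have h1 := ha.2.2
    have h2 : c L < a.2 * (s L : ℤ) := by
      linarith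
    have h3 : c L / (s L : ℤ) < a.2 := Int.ediv_lt_of_lt_mul (hsZ L) h2
    omega
  refine ⟨c L / (s L : ℤ) + 1, ⟨⟨_, hcint, rfl⟩, ?_⟩, ?_⟩
  · rintro h ⟨u, hu, rfl⟩
    exact hmin u hu
  · intro a ha
    obtain ⟨hk0, hk⟩ := key a ha
    have hM := hmin a ha
    have haL := ((lattice_interior_iff s hs a).1 ha).2.2
    set d0 := c L / (s L : ℤ) + 1 with hd0
    set M := a.2 - d0 with hMdef
    have hM0 : 0 ≤ M := by omega
    refine ⟨(fun i => c i + max 0 ((a.1 i - c i) - M * (s i : ℤ)), d0),
      (fun i => min (a.1 i - c i) (M * (s i : ℤ)), M), ?_, rfl, ?_, ?_⟩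
    · rw [lattice_interior_iff s hs]
      refine ⟨?_, fun j => ?_, ?_⟩
      · simp only
        have := le_max_left 0 ((a.1 0 - c 0) - M * (s 0 : ℤ))
        omega
      · simp only
        have h1 := hc j
        have h2 := hg j
        have h3 := hk j
        have h4 : max 0 ((a.1 j.castSucc - c j.castSucc) - M * (s j.castSucc : ℤ)) *
            (s j.succ : ℤ) ≤
            max 0 ((a.1 j.succ - c j.succ) - M * (s j.succ : ℤ)) * (s j.castSucc : ℤ) := by
          rcases le_total ((a.1 j.castSucc - c j.castSucc) - M * (s j.castSucc : ℤ)) 0 with h | h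
          · rw [max_eq_left h, zero_mul]
            exact mul_nonneg (le_max_left _ _) (hsZ _).le
          · rw [max_eq_right h]
            have h5 : (a.1 j.succ - c j.succ) - M * (s j.succ : ℤ) ≤
              max 0 ((a.1 j.succ - c j.succ) - M * (s j.succ : ℤ)) := le_max_right _ _
            have h6 := mul_le_mul_of_nonneg_right h5 (hsZ j.castSucc).le
            nlinarith
        nlinarith
      · simp only
        rcases le_total ((a.1 L - c L) - M * (s L : ℤ)) 0 with h | h
        · rw [max_eq_left h]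
          linarith
        · rw [max_eq_right h]
          have : a.2 = M + d0 := by omega
          rw [this] at haL
          nlinarith
    · rw [lattice_mem_iff s hs]
      refine ⟨?_, fun j => ?_, ?_⟩
      · simp only
        exact le_min hk0 (mul_nonneg hM0 (hsZ 0).le)
      · simp only
        have h3 := hk j
        rw [min_mul_of_nonneg _ _ (hsZ j.succ).le, min_mul_of_nonneg _ _ (hsZ j.castSucc).le]
        apply le_min
        · exact le_trans (min_le_left _ _) h3
        · refine le_trans (min_le_right _ _) (le_of_eq (by ring))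
      · simp only
        exact min_le_right _ _
    · ext i
      · simp only [Prod.fst_add, Pi.add_apply]
        rcases le_total ((a.1 i - c i) - M * (s i : ℤ)) 0 with h | h
        · rw [max_eq_left h, min_eq_left (by linarith)]
          ring
        · rw [max_eq_right h, min_eq_right (by linarith)]
          ring
      · simp only [Prod.snd_add]
        omega

end Pool.Agent.Results.MP_aff17b_co.GcdImpliesLevel
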